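import Pool.Agent.helper61.WQU.Decomp

set_option autoImplicit false

/-!
# Every well-quasi-order is a countable union of pieces of finite dimension (all universes)
-/

namespace H61.WQU

open H61.BQO H61.Clo

universe u

/-- Sets with an order reflecting map to a finite product of ordinals are better-quasi-ordered. -/
theorem abqo_of_reflect {Q : Type u} [Preorder Q] (ℓ : ℕ) (g : Q → Fin ℓ → Ordinal.{u})
    (hg' : ∀ x y, g x ≤ g y → x ≤ y) : ABQO Q := by
  classical
  intro f hf A hA
  by_contra hbad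
  push Not at hbad
  have hg : ∀ x y : Q, ¬ x ≤ y → ∃ i : Fin ℓ, g y i < g x i := by
    intro x y hxy
    by_contra hcon
    push Not at hcon
    exact hxy (hg' x y hcon)
  let c : (ℕ → ℕ) → Option (Fin ℓ) := fun Y =>
    if h : ∃ i : Fin ℓ, g (f (sh Y)) i < g (f Y) i then some h.choose else none
  have hc : LC c := by
    have h1 := (hf.prod hf.sh).comp (fun p : Q × Q =>
      if h : ∃ i : Fin ℓ, g p.2 i < g p.1 i then some h.choose else (none : Option (Fin ℓ)))
    exact h1
  obtain ⟨B, hBA, hB, κ, hκ⟩ := ramsey c hc A hA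
  rcases κ with _ | i
  · obtain ⟨Y, hY⟩ := exists_sub B hB
    have h1 := hκ Y hY
    have h2 := hg _ _ (hbad Y (hY.mono hBA))
    have h3 : c Y = some h2.choose := dif_pos h2
    rw [h3] at h1
    cases h1
  · refine no_descent (fun Y => g (f Y) i) B hB fun Y hY => ?_
    have h1 := hκ Y hY
    have h2 := hg _ _ (hbad Y (hY.mono hBA))
    have h3 : c Y = some h2.choose := dif_pos h2
    rw [h3] at h1
    have h4 : h2.choose = i := Option.some.inj h1
    have h5 := h2.choose_spec
    rw [h4] at h5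
    exact h5

/-- Every well-quasi-order has a countable partition into pieces of finite dimension. -/
theorem exists_pieces (P : Type u) [Preorder P] (hP : ∀ g : ℕ → P, ∃ m n, m < n ∧ g m ≤ g n) :
    ∃ Q : ℕ → Set P, (∀ x, ∃! n, x ∈ Q n) ∧ ∀ n, ∃ (d : ℕ) (φ : Q n → Fin d → Ordinal.{u}),
      ∀ x y, φ x ≤ φ y → x ≤ y := by
  classical
  let W : WQ.{u} := ⟨P, (· ≤ ·), fun _ => le_rfl, fun _ _ _ => le_trans, hP⟩
  obtain ⟨col, Φ, h1, h2⟩ := exists_good W _ Set.univ
    (fun F _ => Set.subset_univ _ : Closed (op W) Set.univ) rfl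
  let ι : P → V W := fun x => ⟨0, (x : (Lv W 0).α)⟩
  refine ⟨fun k => {x | col (ι x) = k}, ?_, fun k => ?_⟩
  · intro x
    exact ⟨col (ι x), rfl, fun k hk => hk.symm⟩
  · by_cases hne : ∃ x₀ : P, col (ι x₀) = k
    · obtain ⟨x₀, hx₀⟩ := hne
      have hlen : ∀ x : {x | col (ι x) = k}, (Φ (ι x.1)).length = (Φ (ι x₀)).length := by
        intro x
        refine h1 _ (Set.mem_univ _) _ (Set.mem_univ _) ?_
        have : col (ι x.1) = k := x.2
        rw [this, hx₀]
      refine ⟨(Φ (ι x₀)).length, fun x i => (Φ (ι x.1)).get ⟨i.1, by rw [hlen]; exact i.2⟩, ?_⟩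
      intro x y hxy
      have hx : col (ι x.1) = k := x.2
      have hy : col (ι y.1) = k := y.2
      refine h2 0 x.1 y.1 (Set.mem_univ _) (Set.mem_univ _) (hx.trans hy.symm) ?_
      show List.Forall₂ (· ≤ ·) (Φ (ι x.1)) (Φ (ι y.1))
      rw [List.forall₂_iff_get]
      refine ⟨by rw [hlen, hlen], fun i h1 h2 => ?_⟩
      exact hxy ⟨i, by rw [hlen] at h1; exact h1⟩
    · refine ⟨0, fun _ i => i.elim0, ?_⟩
      intro x _ _
      exact absurd ⟨x.1, x.2⟩ hne

end H61.WQU
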